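import Pool.Agent.Work.MP_e09086_co.Main

/-!
# MP_e09086_co: most colour classes of a small saturated colouring are near-optimal Ramsey graphs
-/

set_option autoImplicit false

open Sat3 in
/-- The colour classes of a saturated `r`-colouring of `K_n` form a configuration. There is `κ > 0`
such that, for every configuration `G` of `r ≥ 2` graphs on `n` vertices and every
`1 ≤ t ≤ 2 r / 3`, there is one set `U` of at least `κ r² log r` vertices such that for all but
fewer than `t` of the indices `i` every `G_i`-independent subset of `U` has at most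
`(log (n / (κ r² log r)) / t) |U|` elements. -/
theorem Pool.Agent.Results.MP_e09086_co.CommonSet.result :
    (∀ (r n : ℕ) (c : Sym2 (Fin n) → Fin r), 2 ≤ r → Saturated c → Config (cls c)) ∧
    ∃ κ : ℝ, 0 < κ ∧ ∀ r n : ℕ, 2 ≤ r → ∀ G : Fin r → SimpleGraph (Fin n), Config G →
      ∀ t : ℕ, 1 ≤ t → 3 * t ≤ 2 * r →
        ∃ U : Finset (Fin n), κ * ((r : ℝ) ^ 2 * Real.log r) ≤ U.card ∧
          ∃ T : Finset (Fin r), T.card < t ∧ ∀ i ∉ T, ∀ I ⊆ U, (G i).IsIndepSet I →
            (I.card : ℝ) ≤ Real.log (n / (κ * ((r : ℝ) ^ 2 * Real.log r))) / t * U.card :=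
  ⟨fun _ _ _ hr h => h.config (by omega), common_set⟩
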