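import Pool.Agent.Work.MP_e09086_co.Main

/-!
# MP_e09086_co: the sum of the reciprocal Hall ratios of the colour classes
-/

set_option autoImplicit false

open Sat3 in
/-- There is `κ > 0` such that, if `G` is a configuration of `r ≥ 2` graphs on `n` vertices (for
instance the colour classes of a saturated `r`-colouring of `K_n`) and every vertex set `W` contains
a `G_i`-independent set of at least `|W| / ρ_i` vertices, then
`∑ 1 / ρ_i ≤ 2 log (n / (κ r² log r))`. -/
theorem Pool.Agent.Results.MP_e09086_co.HallSum.result :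
    ∃ κ : ℝ, 0 < κ ∧ ∀ r n : ℕ, 2 ≤ r →
      (∀ c : Sym2 (Fin n) → Fin r, Saturated c → Config (cls c)) ∧
      ∀ G : Fin r → SimpleGraph (Fin n), Config G → ∀ ρ : Fin r → ℝ,
        (∀ i, ∀ W : Finset (Fin n), ∃ I ⊆ W, (G i).IsIndepSet I ∧
          (W.card : ℝ) ≤ ρ i * I.card) →
        ∑ i, (ρ i)⁻¹ ≤ 2 * Real.log (n / (κ * ((r : ℝ) ^ 2 * Real.log r))) := by
  obtain ⟨κ, h0, h1⟩ := hall_sum
  exact ⟨κ, h0, fun r n hr => ⟨fun c hc => hc.config (by omega), h1 r n hr⟩⟩
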